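import Mathlib
import Pool.Agent.H27.Scd2

set_option autoImplicit false

namespace Pool.Agent.Results.MP_349854_an.NoPiBase

open Filter Topology Set

/-- The slice of `A` given by the functional `f` and `ε`. -/
def slice {X : Type} [NormedAddCommGroup X] [NormedSpace ℝ X] (A : Set X) (f : X →L[ℝ] ℝ)
    (ε : ℝ) : Set X :=
  {x ∈ A | sSup (f '' A) - ε < f x}

/-- A sequence of nonempty subsets of `A` is determining for `A`. -/
def Determining {X : Type} [NormedAddCommGroup X] [NormedSpace ℝ X] (A : Set X)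
    (V : ℕ → Set X) : Prop :=
  (∀ n, (V n).Nonempty ∧ V n ⊆ A) ∧
    ∀ B : Set X, (∀ n, (B ∩ V n).Nonempty) → A ⊆ closure (convexHull ℝ B)

/-- Slicely countably determined sets. -/
def SCD {X : Type} [NormedAddCommGroup X] [NormedSpace ℝ X] (A : Set X) : Prop :=
  ∃ (f : ℕ → X →L[ℝ] ℝ) (ε : ℕ → ℝ), (∀ n, f n ≠ 0 ∧ 0 < ε n) ∧
    Determining A fun n => slice A (f n) (ε n)

/-- A topological space has a countable π-basis. -/
def HasCountablePiBasis (T : Type) [TopologicalSpace T] : Prop :=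
  ∃ 𝒰 : Set (Set T), 𝒰.Countable ∧ (∀ U ∈ 𝒰, IsOpen U ∧ U.Nonempty) ∧
    ∀ V : Set T, IsOpen V → V.Nonempty → ∃ U ∈ 𝒰, U ⊆ V

open Pool.Agent.H27.Scd in
/-- A nonempty closed convex bounded SCD set with no countable π-basis for its weak topology. -/
theorem result : ∃ (X : Type) (_ : NormedAddCommGroup X) (_ : NormedSpace ℝ X)
    (_ : CompleteSpace X) (U : Set X), U.Nonempty ∧ IsClosed U ∧ Convex ℝ U ∧
      Bornology.IsBounded U ∧ SCD U ∧
      ¬ HasCountablePiBasis {x : WeakSpace ℝ X // (toWeakSpace ℝ X).symm x ∈ U} := by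
  refine ⟨X, inferInstance, inferInstance, inferInstance, K, ⟨_, P_mem 0⟩, K_closed, K_convex,
    Metric.isBounded_closedBall.subset K_ball, ?_, fun ⟨𝒰, h1, h2, h3⟩ => no_pibase 𝒰 h1 h2 h3⟩
  let φ : ℕ → X →L[ℝ] ℝ := fun n =>
    (ContinuousMap.evalCLM ℝ (tau n)).comp (ContinuousLinearMap.fst ℝ Y ℝ)
  have hP : ∀ n, φ n (P n) = 1 + eta n := fun n => d_mem (tau_mem n)
  have hle : ∀ n, ∀ p ∈ K, φ n p ≤ 1 + eta n := fun n p hp => by
    have h1 := (norm_nonneg _).trans (dent n hp)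
    have h2 : 0 < 4 / eta n := by have := eta_pos n; positivity
    have h3 := nonneg_of_mul_nonneg_right h1 h2
    show p.1 (tau n) ≤ 1 + eta n
    linarith
  have hsup : ∀ n, sSup (φ n '' K) = 1 + eta n := fun n =>
    IsGreatest.csSup_eq ⟨⟨_, P_mem n, hP n⟩, by rintro _ ⟨p, hp, rfl⟩; exact hle n p hp⟩
  refine ⟨fun k => φ k.unpair.1, fun k => 1 / (k.unpair.2 + 1), fun k => ⟨fun h => ?_, by positivity⟩,
    fun k => ⟨⟨P k.unpair.1, P_mem _, ?_⟩, fun x hx => hx.1⟩, fun B hB => ?_⟩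
  · have h1 := hP k.unpair.1
    have h2 : φ k.unpair.1 = 0 := h
    rw [h2] at h1
    have := eta_pos k.unpair.1
    simp at h1; linarith
  · rw [hsup, hP]
    have : (0 : ℝ) < 1 / (k.unpair.2 + 1) := by positivity
    linarith
  · refine K_sub isClosed_closure (convex_convexHull ℝ B).closure fun n => ?_
    refine closure_mono (subset_convexHull ℝ B) (Metric.mem_closure_iff.2 fun ε hε => ?_)
    have h0 := eta_pos n
    obtain ⟨j, hj⟩ := exists_nat_one_div_lt (by positivity : 0 < ε / (4 / eta n))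
    obtain ⟨b, hb1, hb2, hb3⟩ := hB (Nat.pair n j)
    simp only [Nat.unpair_pair, hsup] at hb3
    refine ⟨b, hb1, ?_⟩
    rw [dist_comm, dist_eq_norm]
    refine (dent n hb2).trans_lt ?_
    rw [lt_div_iff₀ (by positivity)] at hj
    have h4 : 1 + eta n - b.1 (tau n) < 1 / ((j : ℝ) + 1) := by
      have : φ n b = b.1 (tau n) := rfl
      linarith
    have h5 : 0 < 4 / eta n := by positivity
    nlinarith

end Pool.Agent.Results.MP_349854_an.NoPiBase
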